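import Mathlib
import Pool.Agent.V1168.EF.Span
import Pool.Agent.V1168.EF.Rel

/-!
# The crystalline conjecture of Tate for the products of **every** smooth proper variety with abelian
varieties: the exceptional factors have small dimension

Let `K i` (`i` in a set `I`, which may be **infinite**) be CM fields with pair flips (`PairFlips`): for
any two complex embeddings `φ` of `K i` and `ψ` of `K k` (with `i = k` or not) which are neither equal
nor complex conjugate, some automorphism of `ℂ` is the identity on `φ (K i)` and the complex conjugation
on `ψ (K k)`. One CM field `K` of degree `2 g` has this property if the Galois group of its normal
closure is the largest possible one (of order `2 ^ g g!`), or contains, for each pair of complex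
conjugate embeddings, an element which exchanges them and fixes all other embeddings, or contains all
the automorphisms that exchange two pairs in this sense (`g > 2`); several such fields with linearly
disjoint normal closures have it together (for example there are infinite families of imaginary
quadratic fields). We fix an isomorphism `ν` of the algebraic closure of `ℚ_p` with `ℂ`; it defines a
`p`-adic valuation `v` of `ℂ` with `v p = 1`. Let `π i` be a Weil number for `q = p ^ a` in `K i` whose
slope vector, the function `2 v (φ π) - a` on the complex embeddings `φ` (`slopeVector`), is not zero
(there are no other conditions on the slopes).

For finite subsets `J` of `I` let `f i`, `i` in `J`, be monic polynomials whose complex roots are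
conjugates of `π i` (`IsPolyOf`), for instance the characteristic polynomials of Frobenius of the abelian
varieties in the isogeny classes of the `π i` over the field with `q` elements. Let `A` be an abelian
variety over the field with `Q = q ^ s` elements which is isogenous to a product of powers of abelian
varieties coming from the field with `q` elements, with characteristic polynomials `f i`, `i` in `J`
(`IsAbelian`).

Let `Y` be **any** smooth proper scheme over the field `k` with `Q` elements, and let `H^(2 i)(Y)` be its
crystalline cohomology, a vector space over the fraction field `L` of `W(k)` with the linear Frobenius
`Fr`.

Let `Ω` be a finite set of complex numbers, stable under the automorphisms of `ℂ`, whose elements are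
nonzero and lie in CM fields or in totally real fields (`IsStable`). A number `ρ` is generated by `Ω`
(`Generated p Ω`) if it is not zero and a power of it is a product of powers of elements of `Ω` and of a
power of `p`.

We suppose that the eigenvalues of Frobenius on the cohomology of `Y` are generated by `Ω` (`DiagGenerated`).
**There is a finite set `Ω` as required for every `Y`**, as the eigenvalues are Weil numbers (they are
the same as for the `ℓ`-adic cohomology, by Katz and Messing).

**The theorem: there is a finite subset `S` of `I` with `∑ [K i : ℚ] ≤ |Ω|`, the sum over `i` in `S`,
such that for all finite sets `J` disjoint from `S`, all `f i`, `s`, `A` and all `Y` as above the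
statement below is true.** The set `S` depends only on `Ω` and the `π i`, and not on the powers of
the abelian varieties, on the finite field or on `Y`. So if `B i` are the simple abelian varieties of
the `π i` (of dimension `[K i : ℚ] / 2`, for instance if they are ordinary), then **the exceptional ones
for `Y` have together at most the dimension `|Ω| / 2`, whatever the abelian varieties are**: all others
can be multiplied to `Y`. The bound is sharp: for `B 1 × ⋯ × B r` (and its powers) `Ω` has `2 ∑ dim B i`
elements, and all the `B i` are exceptional: there are divisor classes in
`H^1(B i) ⊗ H^1(B 1 × ⋯ × B r)`.

The results of the starting files of this kind are about varieties whose Frobenius eigenvalues are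
unrelated to the fields `K i` or have small slopes. **Here they are arbitrary**: they may generate the
same fields `K i`, or fields containing them.

There are products `D t` of `c t` divisor classes on `A`, finitely many (independent of `Y`), such
that for all `i`

1. every `x` in `H^(2 i)(A × Y)` with `Fr x = Q ^ i x` is in a unique way the sum of the products of the
   classes of the `D t` with elements `z t` of `H^(2 (i - c t))(Y)`, `Fr (z t) = Q ^ (i - c t) (z t)`;
2. **the `L`-linear cycle class map from the cycles of codimension `i` on `A × Y` to
   `H^(2 i)(A × Y)(i)^Fr` is surjective if and only if it is surjective for `Y` in the codimensions
   `i - k`, `0 ≤ k ≤ dim A`.**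

No conjecture is assumed. For instance, as the statement is known for the varieties `Y` of dimension at
most three for which the `ℓ`-adic conjecture is known (K3 surfaces, surfaces and threefolds dominated by
products of curves, abelian threefolds), **it holds for all their products `A × Y`, of any dimension and
in all codimensions**, with the exceptions above for `A`; and for `Y` a point.

The framework: the Chow ring and the ring of correspondences of `A`, with rational coefficients, and
the cohomology of `A` with complex coefficients (we choose an isomorphism of the algebraic closure of
`ℚ_ℓ` with `ℂ`), with the formal properties and the theorems of Tate on divisors and of Kimura on the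
nilpotence of homologically trivial correspondences (`AbelianData`, `IsAbelian`); the Chow groups
`T^(2 j)(Y, j) = CH^j(Y)` and `T^(2 j)(A × Y, j) = CH^j(A × Y)` with rational coefficients, and the
crystalline cohomology groups `R^(2 j)(Y, j)` and `R^(2 j)(A × Y, j)`, vector spaces over `L`
(`IsLinear`), both with the products with classes on `A`, the push-forward from `A × Y` to `Y`,
the operation of the correspondences from `A` to `A` and the Frobenius endomorphism of `Y` (`frobN`,
`frobM`; `RelData`, `IsRel`), and the cycle class map `ρ` (`IsRegulator`; `SpanData`, `IsSpanTheory`).
The Frobenius endomorphism of `A × Y` is the product of the ones of `A` and `Y`; the elements of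
`H^(2 j)` which it multiplies by `Q ^ j` are the ones of `InvN` (for `Y`) and `InvM` (for `A × Y`),
and the linear spans of the classes of the cycles are `spanN` and `spanM`.

The proof. Let `x i` be the slope vectors of the `π i`. If a product of a number `ρ` generated by `Ω`
and of roots of the `f i`, no two of them complex conjugate, is a power of `q` up to a root of unity,
then, computing valuations, there are odd functions `n i` on the embeddings of the `K i`, not all zero,
such that the function `σ ↦ ∑ n i φ * x i (σ φ)` of the automorphisms `σ` of `ℂ` (the sum over all `i` and
all embeddings `φ`) is in the space `F` spanned by the functions `σ ↦ v (σ β) - v (conj (σ β))`, `β` in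
`Ω`. This space is stable under translations. So we can average over the automorphisms which fix a
given embedding `φ₀` of `K i`: by the pair flips the average of an odd function is zero except at `φ₀`
and its conjugate, so that the function `σ ↦ x i (σ φ₀)` is in `F` if `n i φ₀` is not zero, and then the
same is true for all embeddings of this field `K i` (`EF.orb_mem`). Let `S` be the set of all `i` such
that these functions are in `F`. Again by the pair flips, the functions `σ ↦ x i (σ φ)`, for all `i` and
one `φ` out of each complex conjugate pair, are linearly independent. As the dimension of `F` is at most
`|Ω| / 2` (conjugate `β` give opposite functions), `∑ [K i : ℚ] / 2`, the sum over `S`, is at most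
`|Ω| / 2` (`EF.exists_exceptional`), and outside of `S` there are no such relations
(`EF.exactPair_of`).
If a Weil number `α` of the cohomology of `A` and a number `ρ` generated by `Ω` have the product `Q ^ j`, then
`α = Q ^ k` and `α` is a product of pairs of complex conjugate numbers, so that the eigenvectors of the
Frobenius endomorphism of `A` for `α` are products of divisor classes. There are products `D t` of
`c t` divisor classes on `A` with a dual system `E t` for the intersection pairing; let `p` be the
projector given by them. For a suitable polynomial `P` the correspondence `(1 - p) P (F)` is
homologically trivial, hence nilpotent, and `P (F)` is invertible on the eigenspace of the Frobenius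
endomorphism of `A × Y` for `Q ^ j`. So `p` acts as the identity: `w = ∑ D t × (E t)_* w` for all `w` in
this eigenspace. The semisimplicity of Frobenius is not used. The `D t × w`
and the maps `(E t)_*` respect the eigenspaces and the spans of the classes of cycles, whence (1) and
(2) (`EF.tateSpanTimes`).
-/

set_option autoImplicit false

namespace Pool.Agent.Results.MP_60ec62_ag.EveryVarietyTimes

open NumberField Pool.Agent.V1168.EF
open Pool.Agent.V1168.EV (PairFlips slopeVector)

/-- **For every smooth proper variety `Y`
with Frobenius eigenvalues generated by the stable finite set `Ω` and all abelian
varieties `A` given by Weil numbers in a family of CM fields with pair flips, without factors in an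
exceptional set `S` with `∑ [K i : ℚ] ≤ |Ω|`: the crystalline
cycle class map of `A × Y` in codimension `i` is onto the classes with `Fr x = Q ^ i x` if and only if
the same is true for `Y` in the codimensions `i - k`, `0 ≤ k ≤ dim A`.** -/
theorem result {p : ℕ} [Fact p.Prime] (ν : PadicAlgCl p ≃+* ℂ) {I : Type}
    (K : I → Type) [∀ i, Field (K i)] [∀ i, NumberField (K i)] [∀ i, IsCMField (K i)]
    (hK : PairFlips K) (a : ℕ) (ha : 0 < a) (π : ∀ i, K i)
    (hπ : ∀ i, π i * IsCMField.complexConj (K i) (π i) = (p : K i) ^ a)
    (hs : ∀ i, ∃ φ, slopeVector ν a (π i) φ ≠ 0) (Ω : Finset ℂ) (hΩ : IsStable Ω) :
    ∃ S : Finset I, ∑ i ∈ S, Module.finrank ℚ (K i) ≤ Ω.card ∧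
      ForAllPolys π (p ^ a) S (fun _ q f => TateSpanTimes p Ω q f) := by
  obtain ⟨S, hS, h⟩ := exists_factors ν hK ha hπ hs hΩ
  exact ⟨S, hS, h _ fun J q f hq hR => tateSpanTimes hq hR⟩

end Pool.Agent.Results.MP_60ec62_ag.EveryVarietyTimes
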