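import Pool.Agent.H255R.MR.Eig

/-!
# The crystalline Tate conjecture for products of regular surfaces and for products of curves
-/

open CategoryTheory AlgebraicGeometry

universe u v w x

namespace Pool.Agent.Results.MP_60ec62_ag.RegularSurfaces

open Pool.Agent.H914 Pool.Agent.H914.VarClass Pool.Agent.H914.VarClass.Obj Pool.Agent.W492.BB
  Pool.Agent.W550.Corr Pool.Agent.TH133 Pool.Agent.H255R.HR Pool.Agent.H255R.MR

/-- The crystalline Tate conjecture for `X` in codimension at most `R`: the classes `y` of degree `2 i`,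
`i ≤ R`, with `Fr y = p ^ i y` are the classes of cycles with coefficients in `ℚ_p`. (The classes of
degree `2 i` and the cycles of codimension `i` are those of the families `𝓓` and `𝓜`.) -/
def CrystallineTate {k : Type u} [Field k] {𝒱 : VarClass k} {C : TheoryData.{u, v, 0} 𝒱 ℚ}
    {M D : ModData.{u, v, x} C} (p : ℚ) (Fr : ∀ X, D.A X → D.A X) (φ : ∀ X, M.A X → D.A X)
    (𝓜 : Fam M) (𝓓 : Fam D) (R : ℤ) (X : 𝒱.Obj) : Prop :=
  ∀ i ≤ R, ∀ y : D.A X, 𝓓.Mem X i y → Fr X y = p ^ i • y → ∃ z : M.A X, 𝓜.Mem X i z ∧ φ X z = y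

/-- Let `k` be the algebraic closure of the field with `p` elements, and consider the smooth
projective varieties `X` over `k`. Let `M(X)` be the Chow groups with coefficients in `ℚ_p`, let `D(X)`
be the direct limit of the crystalline cohomology groups `H_crys(X_l / W(l))[1/p]` over the finite
fields `l` and the models `X_l` of `X` over `l`, with the absolute Frobenius `Fr`, and let `φ` be the
cycle class map. (By Galois descent the condition `CrystallineTate` for `X` is the `ℚ_p`-linear form
of the conjecture for all the models of `X` over finite fields.) More generally, let `φ : M → D` be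
a transformation of module theories over the Chow groups, where `M` and `D` are graded and `D`
has a Frobenius operator.

Let `𝒞` be a class of curves with `HasGalQuotients` (for example the elliptic and the hyperelliptic
curves, or one hyperelliptic curve). For all varieties `U` and all `R` and `N` the following
statements are equivalent.

1. The crystalline Tate conjecture in codimension at most `R` holds for the varieties `U × A`
and `U × A × S`, where `A` is a product of at most `N` regular surfaces dominated by products of two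
curves in `𝒞`, and `S` is a curve in `𝒞`.
2. The same without the condition that the surfaces be regular.
3. The crystalline Tate conjecture in codimension at most `R` holds for `U × W`, where `W` is a
product of at most `2 N + 1` curves in `𝒞`.
4. The crystalline Tate conjecture in codimension at most `R` holds for all varieties which are
dominated by varieties `U × W` as in 3. -/
theorem result {k : Type u} [Field k] {𝒱 : VarClass k} (C : TheoryData.{u, v, 0} 𝒱 ℚ)
    [IsChowProj C] {F : Type w} [Field F] [CharZero F] (H : WeilTheoryData.{u, v, w} C F)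
    [IsWeilProj H] (M D : ModData.{u, v, x} C) (hM : IsModTheory M) (hD : IsModTheory D)
    (φ : ∀ X, M.A X → D.A X) (hφ : IsTransformation M D φ) (𝓜 : Fam M) (𝓓 : Fam D)
    (p : ℕ) (hp : p.Prime) (Fr : ∀ X, D.A X → D.A X) (hF : IsFrobenius D p Fr)
    (𝒞 : 𝒱.Obj → Prop) (hG : HasGalQuotients.{u, v, w, x} H 𝒞) (U : 𝒱.Obj) (R : ℤ) (N : ℕ) :
    List.TFAE [
      ∀ m ≤ N, ∀ A : 𝒱.Obj, IsProdOf U (IsRegDominated.{u, v, w, x} H 𝒞) m A →
        CrystallineTate p Fr φ 𝓜 𝓓 R A ∧
          ∀ S : 𝒱.Obj, 𝒞 S → CrystallineTate p Fr φ 𝓜 𝓓 R (A.prod S),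
      ∀ m ≤ N, ∀ A : 𝒱.Obj, IsProdOf U (IsDominated.{u, v, x} C 𝒞) m A →
        CrystallineTate p Fr φ 𝓜 𝓓 R A ∧
          ∀ S : 𝒱.Obj, 𝒞 S → CrystallineTate p Fr φ 𝓜 𝓓 R (A.prod S),
      ∀ l ≤ 2 * N + 1, ∀ W : 𝒱.Obj, IsProdOf U 𝒞 l W → CrystallineTate p Fr φ 𝓜 𝓓 R W,
      ∀ l ≤ 2 * N + 1, ∀ W X : 𝒱.Obj, IsProdOf U 𝒞 l W → IsDominatedBy C W X →
        CrystallineTate p Fr φ 𝓜 𝓓 R X] :=
  tfae1 (M := D) (𝓜 := eigFam hF (Nat.cast_ne_zero.2 hp.ne_zero) 𝓓) (𝓝 := imFam hφ 𝓜)
    hG U R N _ fun _ => ⟨fun h i hi y hy => h i hi y hy.1 hy.2,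
      fun h i hi y hy hy' => h i hi y ⟨hy, hy'⟩⟩

end Pool.Agent.Results.MP_60ec62_ag.RegularSurfaces
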