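import Pool.Agent.V11106.SH.Act

/-!
# The Tate conjecture up to errors which are small compared with the Betti number

Let `W` be a Weil cohomology theory (coefficients `K`) on a class of varieties closed under
products, with an action of `Γ` on the cohomology algebras of all varieties, compatible with
pull-backs, which acts on the classes of cycles of codimension `r` by `χ ^ r` (for the crystalline
cohomology of smooth proper schemes over a finite field with `q` elements: `Γ` has one element, it
acts by the `K`-linear Frobenius, and `χ = q`). Assume that the class contains, for every `N`, a
surface with algebraic cohomology and `N` independent divisor classes (a successive blow-up of the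
projective plane in rational points).

**Fixed dimension.** If on the varieties `Y` of dimension `n + 2` the dimension of the space of the
Tate classes of codimension `r + 1` exceeds the dimension of the span of the classes of the cycles
by at most `o(b)`, where `b` is the Betti number `b_(2 r + 2)(Y)`, then on all varieties `X` of
dimension `n` all Tate classes of codimension `r` are algebraic. More generally, for each `θ ≥ 0`: if
for the `Y` the algebraic classes have at least the share `θ` of the dimension of the space of the
Tate classes up to `o(b)`, then for the `X` they have exactly at least this share.

**All dimensions.** Hence the Tate conjecture for all varieties and codimensions is equivalent to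
defects which are bounded for each dimension and codimension, and to defects `o(b)`.
-/

open CategoryTheory AlgebraicGeometry

universe u v w

namespace Pool.Agent.Results.MP_60ec62_ag.SublinearDefects

open Pool.Agent.H914 VarClass Obj WeilCohomology Pool.Agent.V11106.LB Pool.Agent.V11106.SH

variable {k : Type u} [Field k] {𝒱 : VarClass k} {ops : CycleOps 𝒱}

theorem result (W : WeilCohomology.{u, v} ops) (hT : HasRationalSurfaces W) {Γ : Type w}
    (G : GaloisLike W Γ) :
    (∀ n r : ℕ, ShareUpToSublinear G 1 (n + 2) (r + 1) → TateIn G n r) ∧
    [∀ n r : ℕ, TateIn G n r, ∀ n r : ℕ, BoundedDefect G n r,
      ∀ n r : ℕ, ShareUpToSublinear G 1 n r].TFAE ∧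
    ∀ θ : ℝ, 0 ≤ θ → (∀ n r : ℕ, ShareUpToSublinear G θ (n + 2) (r + 1) → Share G θ n r) ∧
      ((∀ n r : ℕ, Share G θ n r) ↔ ∀ n r : ℕ, ShareUpToSublinear G θ n r) :=
  tate_main hT G

end Pool.Agent.Results.MP_60ec62_ag.SublinearDefects
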